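import Pool.Agent.Q214.MP2489.Mats

set_option autoImplicit false

namespace Pool.Agent.Q214.MP2489

open Filter Topology

/-- The moment `E |g|^t` for the product of `n` letters. -/
noncomputable def EE (lam t : ℝ) (n : ℕ) : ℝ :=
  ((4 : ℝ) ^ n)⁻¹ * ∑ w : Fin n → L, opn (Mx lam (List.ofFn w)) ^ t

theorem opn_pos (lam : ℝ) (hl : 4 * 10 ^ 100 ≤ lam) (w : List L) : 0 < opn (Mx lam w) :=
  lt_of_lt_of_le (wt_pos _ theta_pos _) (wt_le_opn lam hl w)

theorem EE_pos (lam : ℝ) (hl : 4 * 10 ^ 100 ≤ lam) (t : ℝ) (n : ℕ) : 0 < EE lam t n := by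
  unfold EE
  have : 0 < ∑ w : Fin n → L, opn (Mx lam (List.ofFn w)) ^ t :=
    Finset.sum_pos (fun w _ => Real.rpow_pos_of_pos (opn_pos lam hl _) _) Finset.univ_nonempty
  positivity

theorem wt_rpow (β : L → ℝ) (hβ : ∀ x, 0 < β x) (t : ℝ) (s : List L) :
    wt β s ^ t = wt (fun x => β x ^ t) s := by
  induction s with
  | nil => simp
  | cons x s ih =>
    rw [wt_cons, wt_cons, Real.mul_rpow (hβ x).le (wt_pos β hβ s).le, ih]

theorem EE_upper (lam : ℝ) (hl : 4 * 10 ^ 100 ≤ lam) (t : ℝ) (ht : t ≤ 0)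
    (hsum : ∑ x, theta x ^ t ≤ 2 / √3) (n : ℕ) : EE lam t n ≤ (√3 / 2) ^ n := by
  have h1 : ∑ w : Fin n → L, opn (Mx lam (List.ofFn w)) ^ t ≤ T (wt fun x => theta x ^ t) n := by
    unfold T
    refine Finset.sum_le_sum fun w _ => ?_
    rw [← wt_rpow theta theta_pos]
    exact Real.rpow_le_rpow_of_nonpos (wt_pos _ theta_pos _) (wt_le_opn lam hl _) ht
  have h2 := T_wt (fun x => theta x ^ t) (fun x => Real.rpow_pos_of_pos (theta_pos x) t) hsum n
  unfold EE
  calc ((4 : ℝ) ^ n)⁻¹ * ∑ w : Fin n → L, opn (Mx lam (List.ofFn w)) ^ t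
      ≤ ((4 : ℝ) ^ n)⁻¹ * (2 * √3) ^ n :=
        mul_le_mul_of_nonneg_left (h1.trans h2) (by positivity)
    _ = (√3 / 2) ^ n := by
        rw [← inv_pow, ← mul_pow]
        congr 1
        ring

theorem theta_sum (t : ℝ) (h1 : -(1 / 25) ≤ t) (h2 : t ≤ -(1 / 50)) :
    ∑ x, theta x ^ t ≤ 2 / √3 := by
  have e : ∑ x, theta x ^ t = (1 / 10 : ℝ) ^ t + 3 * ((10 : ℝ) ^ 100) ^ t := by
    rw [Fintype.sum_prod_type]
    simp only [Fintype.sum_bool, theta]
    ring
  rw [e]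
  have a1 : (1 / 10 : ℝ) ^ t ≤ 11 / 10 := by
    have h3 : (1 / 10 : ℝ) ^ t = (10 : ℝ) ^ (-t) := by
      rw [one_div, Real.inv_rpow (by norm_num), Real.rpow_neg (by norm_num)]
    rw [h3]
    calc (10 : ℝ) ^ (-t) ≤ (10 : ℝ) ^ (1 / 25 : ℝ) :=
          Real.rpow_le_rpow_of_exponent_le (by norm_num) (by linarith)
      _ ≤ ((11 / 10 : ℝ) ^ (25 : ℕ)) ^ (1 / 25 : ℝ) :=
          Real.rpow_le_rpow (by norm_num) (by norm_num) (by norm_num)
      _ = 11 / 10 := by
          rw [← Real.rpow_natCast, ← Real.rpow_mul (by norm_num)]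
          norm_num
  have a2 : ((10 : ℝ) ^ 100) ^ t ≤ 1 / 100 := by
    have h1' : (1 : ℝ) ≤ 10 ^ 100 := one_le_pow₀ (by norm_num)
    calc ((10 : ℝ) ^ 100) ^ t ≤ ((10 : ℝ) ^ 100) ^ (-(1 / 50) : ℝ) :=
          Real.rpow_le_rpow_of_exponent_le h1' h2
      _ = 1 / 100 := by
          rw [← Real.rpow_natCast, ← Real.rpow_mul (by norm_num)]
          norm_num
  have a3 : (0 : ℝ) < √3 := by positivity
  have a4 : (√3) * √3 = 3 := Real.mul_self_sqrt (by norm_num)
  rw [le_div_iff₀ a3]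
  have a5 : √3 ≤ 7 / 4 := by
    rw [show (7 / 4 : ℝ) = √((7 / 4) ^ 2) by rw [Real.sqrt_sq (by norm_num)]]
    exact Real.sqrt_le_sqrt (by norm_num)
  have a6 : (1 / 10 : ℝ) ^ t + 3 * ((10 : ℝ) ^ 100) ^ t ≤ 113 / 100 := by linarith
  calc ((1 / 10 : ℝ) ^ t + 3 * ((10 : ℝ) ^ 100) ^ t) * √3 ≤ 113 / 100 * (7 / 4) :=
        mul_le_mul a6 a5 a3.le (by norm_num)
    _ ≤ 2 := by norm_num

theorem EE_return (lam : ℝ) (hl : 4 * 10 ^ 100 ≤ lam) (t : ℝ) (m : ℕ) (hm : 1 ≤ m) :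
    (3 / 4 : ℝ) ^ m / (2 * m * (m + 1)) ≤ EE lam t (2 * m) := by
  have h0 : 0 < lam := by linarith [big lam hl]
  have h1 := T_return m hm
  have h2 : T (fun s => if s = [] then 1 else 0) (2 * m) ≤
      ∑ w : Fin (2 * m) → L, opn (Mx lam (List.ofFn w)) ^ t := by
    unfold T
    refine Finset.sum_le_sum fun w _ => ?_
    change (if red (List.ofFn w) = [] then (1 : ℝ) else 0) ≤ _
    split_ifs with h
    · rw [← Mx_red lam h0, h, Mx_nil, opn_one, Real.one_rpow]
    · exact (Real.rpow_pos_of_pos (opn_pos lam hl _) _).le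
  unfold EE
  have h3 : (3 / 4 : ℝ) ^ m / (2 * m * (m + 1)) =
      ((4 : ℝ) ^ (2 * m))⁻¹ * ((12 : ℝ) ^ m / (2 * m * (m + 1))) := by
    have : (3 / 4 : ℝ) ^ m = ((4 : ℝ) ^ (2 * m))⁻¹ * (12 : ℝ) ^ m := by
      rw [pow_mul, ← inv_pow, ← mul_pow]
      norm_num
    rw [this]
    ring
  rw [h3]
  exact mul_le_mul_of_nonneg_left (h1.trans h2) (by positivity)

theorem sum_append (m n : ℕ) (f : List L → ℝ) : ∑ w : Fin (m + n) → L, f (List.ofFn w) =
    ∑ u : Fin m → L, ∑ v : Fin n → L, f (List.ofFn u ++ List.ofFn v) := by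
  have h := (Fin.appendEquiv (α := L) m n).sum_comp (fun w => f (List.ofFn w))
  rw [← h, Fintype.sum_prod_type]
  refine Finset.sum_congr rfl fun u _ => Finset.sum_congr rfl fun v _ => ?_
  rw [← List.ofFn_fin_append]
  rfl

theorem EE_add_eq (lam t : ℝ) (m n : ℕ) : EE lam t (m + n) = ((4 : ℝ) ^ m)⁻¹ * ((4 : ℝ) ^ n)⁻¹ *
    ∑ u : Fin m → L, ∑ v : Fin n → L, opn (Mx lam (List.ofFn u) * Mx lam (List.ofFn v)) ^ t := by
  unfold EE
  rw [sum_append m n (fun w => opn (Mx lam w) ^ t), pow_add, mul_inv]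
  simp only [Mx_append]

theorem EE_mul_eq (lam t : ℝ) (m n : ℕ) : EE lam t m * EE lam t n = ((4 : ℝ) ^ m)⁻¹ *
    ((4 : ℝ) ^ n)⁻¹ * ∑ u : Fin m → L, ∑ v : Fin n → L,
      opn (Mx lam (List.ofFn u)) ^ t * opn (Mx lam (List.ofFn v)) ^ t := by
  unfold EE
  rw [← Finset.sum_mul_sum]
  ring

theorem EE_sub (lam : ℝ) (t : ℝ) (ht : 0 ≤ t) (m n : ℕ) :
    EE lam t (m + n) ≤ EE lam t m * EE lam t n := by
  rw [EE_add_eq, EE_mul_eq]
  refine mul_le_mul_of_nonneg_left ?_ (by positivity)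
  refine Finset.sum_le_sum fun u _ => Finset.sum_le_sum fun v _ => ?_
  rw [← Real.mul_rpow (opn_nonneg _) (opn_nonneg _)]
  exact Real.rpow_le_rpow (opn_nonneg _) (opn_mul _ _) ht

theorem EE_super (lam : ℝ) (hl : 4 * 10 ^ 100 ≤ lam) (t : ℝ) (ht : t ≤ 0) (m n : ℕ) :
    EE lam t m * EE lam t n ≤ EE lam t (m + n) := by
  rw [EE_add_eq, EE_mul_eq]
  refine mul_le_mul_of_nonneg_left ?_ (by positivity)
  refine Finset.sum_le_sum fun u _ => Finset.sum_le_sum fun v _ => ?_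
  rw [← Real.mul_rpow (opn_nonneg _) (opn_nonneg _)]
  refine Real.rpow_le_rpow_of_nonpos ?_ (opn_mul _ _) ht
  rw [← Mx_append]
  exact opn_pos lam hl _

theorem wt_theta_ge (s : List L) : (1 / 10 : ℝ) ^ s.length ≤ wt theta s := by
  induction s with
  | nil => simp
  | cons x s ih =>
    rw [wt_cons, List.length_cons, pow_succ']
    refine mul_le_mul ?_ ih (by positivity) (theta_pos x).le
    rcases x with ⟨a, b⟩
    cases a <;> cases b <;> simp only [theta] <;> norm_num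

theorem opn_ge (lam : ℝ) (hl : 4 * 10 ^ 100 ≤ lam) (w : List L) :
    (1 / 10 : ℝ) ^ w.length ≤ opn (Mx lam w) := by
  refine le_trans ?_ (wt_le_opn lam hl w)
  refine le_trans ?_ (wt_theta_ge _)
  exact pow_le_pow_of_le_one (by norm_num) (by norm_num) (length_red w)

theorem card_words (n : ℕ) : (∑ _w : Fin n → L, (1 : ℝ)) = 4 ^ n := by
  simp

theorem EE_bound_neg (lam : ℝ) (hl : 4 * 10 ^ 100 ≤ lam) (t : ℝ) (ht : t ≤ 0) (n : ℕ) :
    EE lam t n ≤ ((1 / 10 : ℝ) ^ t) ^ n := by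
  unfold EE
  have h1 : ∑ w : Fin n → L, opn (Mx lam (List.ofFn w)) ^ t ≤ ∑ _w : Fin n → L,
      ((1 / 10 : ℝ) ^ t) ^ n := by
    refine Finset.sum_le_sum fun w _ => ?_
    have h2 := opn_ge lam hl (List.ofFn w)
    rw [List.length_ofFn] at h2
    refine (Real.rpow_le_rpow_of_nonpos (by positivity) h2 ht).trans (le_of_eq ?_)
    rw [← Real.rpow_natCast, ← Real.rpow_natCast, ← Real.rpow_mul (by norm_num),
      ← Real.rpow_mul (by norm_num), mul_comm]
  have h2 : ∑ _w : Fin n → L, ((1 / 10 : ℝ) ^ t) ^ n = 4 ^ n * ((1 / 10 : ℝ) ^ t) ^ n := by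
    rw [← card_words, Finset.sum_mul]
    simp
  rw [h2] at h1
  calc ((4 : ℝ) ^ n)⁻¹ * ∑ w : Fin n → L, opn (Mx lam (List.ofFn w)) ^ t
      ≤ ((4 : ℝ) ^ n)⁻¹ * (4 ^ n * ((1 / 10 : ℝ) ^ t) ^ n) :=
        mul_le_mul_of_nonneg_left h1 (by positivity)
    _ = ((1 / 10 : ℝ) ^ t) ^ n := by
        field_simp

theorem EE_bound_pos (lam : ℝ) (hl : 4 * 10 ^ 100 ≤ lam) (t : ℝ) (ht : 0 ≤ t) (n : ℕ) :
    ((1 / 10 : ℝ) ^ t) ^ n ≤ EE lam t n := by
  unfold EE
  have h1 : ∑ _w : Fin n → L, ((1 / 10 : ℝ) ^ t) ^ n ≤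
      ∑ w : Fin n → L, opn (Mx lam (List.ofFn w)) ^ t := by
    refine Finset.sum_le_sum fun w _ => ?_
    have h2 := opn_ge lam hl (List.ofFn w)
    rw [List.length_ofFn] at h2
    refine (le_of_eq ?_).trans (Real.rpow_le_rpow (by positivity) h2 ht)
    rw [← Real.rpow_natCast, ← Real.rpow_natCast, ← Real.rpow_mul (by norm_num),
      ← Real.rpow_mul (by norm_num), mul_comm]
  have h2 : ∑ _w : Fin n → L, ((1 / 10 : ℝ) ^ t) ^ n = 4 ^ n * ((1 / 10 : ℝ) ^ t) ^ n := by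
    rw [← card_words, Finset.sum_mul]
    simp
  rw [h2] at h1
  calc ((1 / 10 : ℝ) ^ t) ^ n = ((4 : ℝ) ^ n)⁻¹ * (4 ^ n * ((1 / 10 : ℝ) ^ t) ^ n) := by
        field_simp
    _ ≤ _ := mul_le_mul_of_nonneg_left h1 (by positivity)

/-- The limit exists for every `t`. -/
theorem exists_lim (lam : ℝ) (hl : 4 * 10 ^ 100 ≤ lam) (t : ℝ) :
    ∃ k : ℝ, Tendsto (fun n : ℕ => 1 / (n : ℝ) * Real.log (EE lam t n)) atTop (𝓝 k) := by
  rcases le_total 0 t with ht | ht
  · have hs : Subadditive fun n => Real.log (EE lam t n) := by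
      intro m n
      rw [← Real.log_mul (EE_pos lam hl t m).ne' (EE_pos lam hl t n).ne']
      exact Real.log_le_log (EE_pos lam hl t _) (EE_sub lam t ht m n)
    have hb : BddBelow (Set.range fun n : ℕ => Real.log (EE lam t n) / n) := by
      refine ⟨min 0 (Real.log ((1 / 10 : ℝ) ^ t)), ?_⟩
      rintro _ ⟨n, rfl⟩
      rcases Nat.eq_zero_or_pos n with h | h
      · subst h; simp
      · have hn : (0 : ℝ) < n := by exact_mod_cast h
        simp only
        rw [le_div_iff₀ hn]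
        have h1 := Real.log_le_log (by positivity) (EE_bound_pos lam hl t ht n)
        rw [Real.log_pow] at h1
        refine le_trans ?_ h1
        rw [mul_comm]
        exact mul_le_mul_of_nonneg_left (min_le_right _ _) hn.le
    refine ⟨hs.lim, ?_⟩
    have := hs.tendsto_lim hb
    refine this.congr fun n => ?_
    ring
  · have hs : Subadditive fun n => -Real.log (EE lam t n) := by
      intro m n
      have h1 := Real.log_le_log (mul_pos (EE_pos lam hl t m) (EE_pos lam hl t n))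
        (EE_super lam hl t ht m n)
      rw [Real.log_mul (EE_pos lam hl t m).ne' (EE_pos lam hl t n).ne'] at h1
      linarith
    have hb : BddBelow (Set.range fun n : ℕ => -Real.log (EE lam t n) / n) := by
      refine ⟨min 0 (-Real.log ((1 / 10 : ℝ) ^ t)), ?_⟩
      rintro _ ⟨n, rfl⟩
      rcases Nat.eq_zero_or_pos n with h | h
      · subst h; simp
      · have hn : (0 : ℝ) < n := by exact_mod_cast h
        simp only
        rw [le_div_iff₀ hn]
        have h1 := Real.log_le_log (EE_pos lam hl t n) (EE_bound_neg lam hl t ht n)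
        rw [Real.log_pow] at h1
        have h2 : min 0 (-Real.log ((1 / 10 : ℝ) ^ t)) * n ≤ -Real.log ((1 / 10 : ℝ) ^ t) * n :=
          mul_le_mul_of_nonneg_right (min_le_right _ _) hn.le
        linarith
    refine ⟨-hs.lim, ?_⟩
    have := (hs.tendsto_lim hb).neg
    refine this.congr fun n => ?_
    ring

theorem EE_zero (lam : ℝ) (n : ℕ) : EE lam 0 n = 1 := by
  unfold EE
  simp only [Real.rpow_zero]
  rw [card_words]
  field_simp

theorem log_tendsto : Tendsto (fun m : ℕ => 1 / ((2 * m : ℕ) : ℝ) *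
    Real.log (2 * m * (m + 1))) atTop (𝓝 0) := by
  have h1 : Tendsto (fun x : ℝ => Real.log x / x) atTop (𝓝 0) := Real.isLittleO_log_id_atTop.tendsto_div_nhds_zero
  have h2 : Tendsto (fun m : ℕ => ((2 * m : ℕ) : ℝ)) atTop atTop :=
    tendsto_natCast_atTop_atTop.comp (tendsto_id.const_mul_atTop' (by norm_num))
  have h3 := (h1.comp h2).const_mul 2
  rw [mul_zero] at h3
  refine tendsto_of_tendsto_of_tendsto_of_le_of_le' tendsto_const_nhds h3 ?_ ?_
  · filter_upwards [eventually_ge_atTop 1] with m hm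
    have hm1 : (1 : ℝ) ≤ m := by exact_mod_cast hm
    refine mul_nonneg (by positivity) (Real.log_nonneg ?_)
    nlinarith
  · filter_upwards [eventually_ge_atTop 1] with m hm
    have hm1 : (1 : ℝ) ≤ m := by exact_mod_cast hm
    simp only [Function.comp]
    have h4 : Real.log (2 * m * (m + 1)) ≤ 2 * Real.log ((2 * m : ℕ) : ℝ) := by
      have : (2 : ℝ) * Real.log ((2 * m : ℕ) : ℝ) = Real.log (((2 * m : ℕ) : ℝ) ^ 2) := by
        rw [Real.log_pow]; norm_num
      rw [this]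
      refine Real.log_le_log (by positivity) ?_
      push_cast
      nlinarith
    calc 1 / ((2 * m : ℕ) : ℝ) * Real.log (2 * m * (m + 1))
        ≤ 1 / ((2 * m : ℕ) : ℝ) * (2 * Real.log ((2 * m : ℕ) : ℝ)) :=
          mul_le_mul_of_nonneg_left h4 (by positivity)
      _ = 2 * (Real.log ((2 * m : ℕ) : ℝ) / ((2 * m : ℕ) : ℝ)) := by ring

theorem lim_lower (lam : ℝ) (hl : 4 * 10 ^ 100 ≤ lam) (t k : ℝ)
    (hk : Tendsto (fun n : ℕ => 1 / (n : ℝ) * Real.log (EE lam t n)) atTop (𝓝 k)) :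
    Real.log (3 / 4) / 2 ≤ k := by
  have h2 : Tendsto (fun m : ℕ => 2 * m) atTop atTop := tendsto_id.const_mul_atTop' (by norm_num)
  have h3 := hk.comp h2
  have h4 := h3.add log_tendsto
  rw [add_zero] at h4
  refine ge_of_tendsto h4 ?_
  filter_upwards [eventually_ge_atTop 1] with m hm
  have hm1 : (1 : ℝ) ≤ m := by exact_mod_cast hm
  simp only [Function.comp]
  have h5 := Real.log_le_log (by positivity) (EE_return lam hl t m hm)
  rw [Real.log_div (by positivity) (by positivity), Real.log_pow] at h5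
  have h6 : (m : ℝ) * Real.log (3 / 4) ≤
      Real.log (EE lam t (2 * m)) + Real.log (2 * m * (m + 1)) := by linarith
  have h7 := mul_le_mul_of_nonneg_left h6 (by positivity : (0 : ℝ) ≤ 1 / ((2 * m : ℕ) : ℝ))
  refine le_trans (le_of_eq ?_) (h7.trans (le_of_eq (by ring)))
  push_cast
  field_simp

theorem lim_const (lam : ℝ) (hl : 4 * 10 ^ 100 ≤ lam) (t k : ℝ) (h1 : -(1 / 25) ≤ t)
    (h2 : t ≤ -(1 / 50))
    (hk : Tendsto (fun n : ℕ => 1 / (n : ℝ) * Real.log (EE lam t n)) atTop (𝓝 k)) :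
    k = Real.log (3 / 4) / 2 := by
  refine le_antisymm ?_ (lim_lower lam hl t k hk)
  refine le_of_tendsto hk ?_
  filter_upwards [eventually_ge_atTop 1] with n hn
  have hn1 : (0 : ℝ) < n := by exact_mod_cast hn
  have h3 := Real.log_le_log (EE_pos lam hl t n) (EE_upper lam hl t (by linarith)
    (theta_sum t h1 h2) n)
  rw [Real.log_pow] at h3
  have h4 : Real.log (√3 / 2) = Real.log (3 / 4) / 2 := by
    have : Real.log (3 / 4) = 2 * Real.log (√3 / 2) := by
      rw [← Real.log_rpow (by positivity), Real.rpow_two, div_pow, Real.sq_sqrt (by norm_num)]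
      norm_num
    rw [this]; ring
  rw [h4] at h3
  rw [one_div, inv_mul_le_iff₀ hn1]
  exact h3

theorem lim_zero (lam : ℝ) (k : ℝ)
    (hk : Tendsto (fun n : ℕ => 1 / (n : ℝ) * Real.log (EE lam 0 n)) atTop (𝓝 k)) : k = 0 := by
  have : (fun n : ℕ => 1 / (n : ℝ) * Real.log (EE lam 0 n)) = fun _ => 0 := by
    funext n
    rw [EE_zero]; simp
  rw [this] at hk
  exact (tendsto_nhds_unique hk tendsto_const_nhds)

theorem opn_a (lam : ℝ) (hl : 4 ≤ lam) : opn (mat lam (false, true)) ≤ 2 / 5 := by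
  unfold opn
  refine ContinuousLinearMap.opNorm_le_bound _ (by norm_num) fun v => ?_
  have h1 : ‖Matrix.toEuclideanCLM (𝕜 := ℝ) (mat lam (false, true)) v‖ ^ 2 ≤ (2 / 5 * ‖v‖) ^ 2 := by
    have e : Matrix.toEuclideanCLM (𝕜 := ℝ) (mat lam (false, true)) v =
        WithLp.toLp 2 ((mat lam (false, true)).mulVec v.ofLp) :=
      Matrix.toEuclideanCLM_toLp _ v.ofLp
    have e2 : ‖v‖ ^ 2 = N v.ofLp := (N_eq v.ofLp).symm
    rw [e, ← N_eq, mul_pow, e2]
    have e3 : N ((mat lam (false, true)).mulVec v.ofLp) =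
        (2 / 5) ^ 2 * v.ofLp 0 ^ 2 + (2 / 5 / lam ^ 2) ^ 2 * v.ofLp 1 ^ 2 := by
      simp only [N, mat, Matrix.mulVec, dotProduct, Fin.sum_univ_two]
      simp
      ring
    rw [e3]
    unfold N
    have h2 : (2 / 5 / lam ^ 2 : ℝ) ^ 2 ≤ (2 / 5) ^ 2 := by
      refine pow_le_pow_left₀ (by positivity) ?_ 2
      rw [div_le_iff₀ (by positivity)]
      nlinarith
    have h3 := mul_le_mul_of_nonneg_right h2 (sq_nonneg (v.ofLp 1))
    linarith
  exact le_of_sq_le_sq h1 (by positivity)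

theorem opn_a_pow (lam : ℝ) (hl : 4 ≤ lam) (n : ℕ) :
    opn (Mx lam (List.replicate n (false, true))) ≤ (2 / 5) ^ n := by
  induction n with
  | zero => simp [opn_one]
  | succ n ih =>
    rw [List.replicate_succ, Mx_cons, pow_succ']
    refine (opn_mul _ _).trans ?_
    exact mul_le_mul (opn_a lam hl) ih (opn_nonneg _) (by norm_num)

theorem lim_neg_three (lam : ℝ) (hl : 4 * 10 ^ 100 ≤ lam) (k : ℝ)
    (hk : Tendsto (fun n : ℕ => 1 / (n : ℝ) * Real.log (EE lam (-3) n)) atTop (𝓝 k)) : 0 < k := by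
  have h4 := big lam hl
  have hc : 0 < Real.log (125 / 32) := Real.log_pos (by norm_num)
  refine hc.trans_le (ge_of_tendsto hk ?_)
  filter_upwards [eventually_ge_atTop 1] with n hn
  have hn1 : (0 : ℝ) < n := by exact_mod_cast hn
  have h1 : (125 / 32 : ℝ) ^ n ≤ EE lam (-3) n := by
    unfold EE
    have h2 : ((125 / 8 : ℝ)) ^ n ≤ ∑ w : Fin n → L, opn (Mx lam (List.ofFn w)) ^ (-3 : ℝ) := by
      refine le_trans ?_ (Finset.single_le_sum (f := fun w : Fin n → L =>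
        opn (Mx lam (List.ofFn w)) ^ (-3 : ℝ)) (fun w _ =>
          (Real.rpow_pos_of_pos (opn_pos lam hl _) _).le) (Finset.mem_univ fun _ => (false, true)))
      simp only [List.ofFn_const]
      have h3 := opn_a_pow lam h4 n
      refine le_trans (le_of_eq ?_) (Real.rpow_le_rpow_of_nonpos (opn_pos lam hl _) h3
        (by norm_num))
      rw [← Real.rpow_natCast, ← Real.rpow_natCast, ← Real.rpow_mul (by norm_num), mul_comm,
        Real.rpow_mul (by norm_num)]
      congr 1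
      rw [Real.rpow_neg (by norm_num)]
      norm_num
    have h3 : (125 / 32 : ℝ) ^ n = ((4 : ℝ) ^ n)⁻¹ * (125 / 8) ^ n := by
      rw [← inv_pow, ← mul_pow]; norm_num
    rw [h3]
    exact mul_le_mul_of_nonneg_left h2 (by positivity)
  have h5 := Real.log_le_log (by positivity) h1
  rw [Real.log_pow] at h5
  rw [one_div, ← div_eq_inv_mul, le_div_iff₀ hn1]
  linarith

/-- `k` is not real-analytic outside a set with at most one element. -/
theorem not_analytic (lam : ℝ) (hl : 4 * 10 ^ 100 ≤ lam) (k : ℝ → ℝ)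
    (hk : ∀ t, Tendsto (fun n : ℕ => 1 / (n : ℝ) * Real.log (EE lam t n)) atTop (𝓝 (k t)))
    (F : Set ℝ) (hF : F.Subsingleton) : ¬ ∀ t ∉ F, AnalyticAt ℝ k t := by
  intro hA
  set c := Real.log (3 / 4) / 2 with hc
  have hc0 : c < 0 := by
    have : Real.log (3 / 4) < 0 := Real.log_neg (by norm_num) (by norm_num)
    linarith
  have hconst : ∀ t : ℝ, -(1 / 25) < t → t < -(1 / 50) → k t = c := fun t h1 h2 =>
    lim_const lam hl t (k t) h1.le h2.le (hk t)
  have h0 : k 0 = 0 := lim_zero lam (k 0) (hk 0)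
  have h3 : 0 < k (-3) := lim_neg_three lam hl (k (-3)) (hk (-3))
  have key : ∀ (W : Set ℝ) (z : ℝ), IsPreconnected W → (∀ t ∈ W, t ∉ F) → z ∈ W →
      -(1 / 25) < z → z < -(1 / 50) → ∀ t ∈ W, k t = c := by
    intro W z hW hWF hz hz1 hz2
    have hev : k =ᶠ[𝓝 z] fun _ => c := by
      filter_upwards [Ioo_mem_nhds hz1 hz2] with s hs
      exact hconst s hs.1 hs.2
    have := AnalyticOnNhd.eqOn_of_preconnected_of_eventuallyEq (f := k) (g := fun _ => c)
      (U := W) (fun t ht => hA t (hWF t ht)) (fun t _ => analyticAt_const) hW hz hev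
    exact this
  rcases F.eq_empty_or_nonempty with h | ⟨x, hx⟩
  · have := key Set.univ (-(3 / 100)) isPreconnected_univ (by simp [h]) (Set.mem_univ _)
      (by norm_num) (by norm_num) 0 (Set.mem_univ _)
    linarith
  · have hFx : ∀ t, t ≠ x → t ∉ F := fun t ht htF => ht (hF htF hx)
    rcases lt_or_ge x (-(3 / 100)) with h | h
    · have := key (Set.Ioi x) (-(3 / 100)) isPreconnected_Ioi
        (fun t ht => hFx t (ne_of_gt ht)) h (by norm_num) (by norm_num) 0
        (by simp only [Set.mem_Ioi]; linarith)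
      linarith
    · have := key (Set.Iio x) (-(7 / 200)) isPreconnected_Iio
        (fun t ht => hFx t (ne_of_lt ht)) (by simp only [Set.mem_Iio]; linarith) (by norm_num)
        (by norm_num) (-3) (by simp only [Set.mem_Iio]; linarith)
      linarith

end Pool.Agent.Q214.MP2489
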