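import Pool.Agent.Q214.MP2489.Words

set_option autoImplicit false

namespace Pool.Agent.Q214.MP2489

open Matrix

/-- The four matrices. -/
noncomputable def mat (lam : ℝ) : L → Matrix (Fin 2) (Fin 2) ℝ
  | (false, true) => !![2 / 5, 0; 0, 2 / 5 / lam ^ 2]
  | (false, false) => !![5 / 2, 0; 0, 5 / 2 * lam ^ 2]
  | (true, true) => !![(lam + lam⁻¹) / 2, (lam - lam⁻¹) / 2; (lam - lam⁻¹) / 2, (lam + lam⁻¹) / 2]
  | (true, false) =>
    !![(lam + lam⁻¹) / 2, -(lam - lam⁻¹) / 2; -(lam - lam⁻¹) / 2, (lam + lam⁻¹) / 2]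

/-- The expanding coordinate of a letter. -/
def att : L → (Fin 2 → ℝ) → ℝ
  | (false, true), v => v 0
  | (false, false), v => v 1
  | (true, true), v => v 0 + v 1
  | (true, false), v => v 0 - v 1

/-- The expansion factor. -/
noncomputable def P (lam : ℝ) : L → ℝ
  | (false, true) => 2 / 5
  | (false, false) => 5 / 2 * lam ^ 2
  | (true, _) => lam

/-- The contraction factor. -/
noncomputable def p (lam : ℝ) : L → ℝ
  | (false, true) => 2 / 5 / lam ^ 2
  | (false, false) => 5 / 2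
  | (true, _) => lam⁻¹

/-- Squared length. -/
def N (v : Fin 2 → ℝ) : ℝ := v 0 ^ 2 + v 1 ^ 2

/-- Normalisation. -/
def sc (x : L) : ℝ := if x.1 then 2 else 1

theorem mat_mul_inv (lam : ℝ) (hl : 0 < lam) (x : L) : mat lam x * mat lam (inv x) = 1 := by
  have h0 := hl.ne'
  rcases x with ⟨a, b⟩
  cases a <;> cases b <;> simp only [mat, inv, Bool.not_true, Bool.not_false] <;>
    ext i j <;> fin_cases i <;> fin_cases j <;> simp [Matrix.mul_apply, Fin.sum_univ_two] <;>
    field_simp <;> ring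

theorem att_mat (lam : ℝ) (hl : 0 < lam) (x : L) (v : Fin 2 → ℝ) :
    att x ((mat lam x).mulVec v) = P lam x * att x v := by
  have h0 := hl.ne'
  rcases x with ⟨a, b⟩
  cases a <;> cases b <;> simp [mat, att, P, Matrix.mulVec, dotProduct, Fin.sum_univ_two] <;>
    ring

theorem att_inv_mat (lam : ℝ) (hl : 0 < lam) (x : L) (v : Fin 2 → ℝ) :
    att (inv x) ((mat lam x).mulVec v) = p lam x * att (inv x) v := by
  have h0 := hl.ne'
  rcases x with ⟨a, b⟩
  cases a <;> cases b <;>
    simp [mat, att, inv, p, Matrix.mulVec, dotProduct, Fin.sum_univ_two] <;> ring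

theorem att_sq (x : L) (v : Fin 2 → ℝ) : att x v ^ 2 + att (inv x) v ^ 2 = sc x * N v := by
  rcases x with ⟨a, b⟩
  cases a <;> cases b <;> simp [att, inv, sc, N] <;> ring

theorem p_lt (lam : ℝ) (hl : 4 ≤ lam) (x : L) : 0 < p lam x ∧ 9 * p lam x < P lam x := by
  have h0 : 0 < lam := by linarith
  rcases x with ⟨a, b⟩
  cases a <;> cases b <;> simp only [p, P]
  · constructor
    · norm_num
    · nlinarith
  · constructor
    · positivity
    · rw [← mul_div_assoc, div_lt_iff₀ (by positivity)]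
      nlinarith
  · constructor
    · positivity
    · rw [← div_eq_mul_inv, div_lt_iff₀ h0]; nlinarith
  · constructor
    · positivity
    · rw [← div_eq_mul_inv, div_lt_iff₀ h0]; nlinarith

/-- The attracting region. -/
def U (x : L) (v : Fin 2 → ℝ) : Prop := 3 * |att (inv x) v| < |att x v|

theorem inv_sc (x : L) : sc (inv x) = sc x := rfl

theorem step (lam : ℝ) (hl : 4 ≤ lam) (x : L) (v : Fin 2 → ℝ) (hv : 0 < N v)
    (hU : ¬ U (inv x) v) : U x ((mat lam x).mulVec v) ∧
      (P lam x / 4) ^ 2 * N v ≤ N ((mat lam x).mulVec v) := by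
  have h0 : 0 < lam := by linarith
  obtain ⟨hp0, hpP⟩ := p_lt lam hl x
  have hP0 : 0 < P lam x := by linarith
  unfold U at hU
  rw [inv_inv] at hU
  push Not at hU
  have hsc : 0 < sc x := by unfold sc; split_ifs <;> norm_num
  have hsq := att_sq x v
  set a := att x v with ha
  set c := att (inv x) v with hc
  have hca : c ^ 2 ≤ 9 * a ^ 2 := by
    have : |c| ^ 2 ≤ (3 * |a|) ^ 2 := pow_le_pow_left₀ (abs_nonneg _) hU 2
    rw [mul_pow, sq_abs, sq_abs] at this
    linarith
  have ha2 : sc x * N v ≤ 10 * a ^ 2 := by linarith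
  have hapos : 0 < |a| := by
    rw [abs_pos]
    intro h
    rw [h] at ha2
    have := mul_pos hsc hv
    linarith
  constructor
  · unfold U
    rw [att_mat lam h0, att_inv_mat lam h0, ← ha, ← hc, abs_mul, abs_mul, abs_of_pos hp0,
      abs_of_pos hP0]
    have : p lam x * |c| ≤ p lam x * (3 * |a|) := mul_le_mul_of_nonneg_left hU hp0.le
    have h2 : 9 * p lam x * |a| < P lam x * |a| := mul_lt_mul_of_pos_right hpP hapos
    linarith
  · have hsq' := att_sq x ((mat lam x).mulVec v)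
    rw [att_mat lam h0, att_inv_mat lam h0, ← ha, ← hc] at hsq'
    have h1 : P lam x ^ 2 * a ^ 2 ≤ sc x * N ((mat lam x).mulVec v) := by
      rw [← hsq']
      have := sq_nonneg (p lam x * c)
      nlinarith
    have h2 : P lam x ^ 2 * (sc x * N v) ≤ P lam x ^ 2 * (10 * a ^ 2) :=
      mul_le_mul_of_nonneg_left ha2 (sq_nonneg _)
    have h3 : sc x * ((P lam x / 4) ^ 2 * N v) ≤ sc x * N ((mat lam x).mulVec v) := by
      have h4 : 0 ≤ P lam x ^ 2 * (sc x * N v) := by positivity
      nlinarith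
    exact le_of_mul_le_mul_left h3 hsc

theorem U_disj (x y : L) (hxy : x ≠ y) (v : Fin 2 → ℝ) (hx : U x v) : ¬ U y v := by
  intro hy
  unfold U at hx hy
  rcases x with ⟨a, b⟩
  rcases y with ⟨a', b'⟩
  cases a <;> cases b <;> cases a' <;> cases b' <;>
    first
    | exact hxy rfl
    | (simp only [att, inv, Bool.not_true, Bool.not_false] at hx hy
       rcases abs_cases (v 0) with h1 | h1 <;> rcases abs_cases (v 1) with h2 | h2 <;>
       rcases abs_cases (v 0 + v 1) with h3 | h3 <;> rcases abs_cases (v 0 - v 1) with h4 | h4 <;>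
       linarith)

/-- The product of the matrices of a word. -/
noncomputable def Mx (lam : ℝ) (s : List L) : Matrix (Fin 2) (Fin 2) ℝ := (s.map (mat lam)).prod

@[simp] theorem Mx_nil (lam : ℝ) : Mx lam [] = 1 := rfl

@[simp] theorem Mx_cons (lam : ℝ) (x : L) (s : List L) : Mx lam (x :: s) = mat lam x * Mx lam s := by
  simp [Mx]

theorem Mx_append (lam : ℝ) (s t : List L) : Mx lam (s ++ t) = Mx lam s * Mx lam t := by
  simp [Mx]

theorem Mx_push (lam : ℝ) (hl : 0 < lam) (x : L) (s : List L) :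
    Mx lam (push x s) = mat lam x * Mx lam s := by
  cases s with
  | nil => simp [push]
  | cons y s =>
    simp only [push]
    split_ifs with h
    · rw [Mx_cons, ← mul_assoc, h]
      have := mat_mul_inv lam hl (inv y)
      rw [inv_inv] at this
      rw [this, one_mul]
    · rw [Mx_cons]

theorem Mx_red (lam : ℝ) (hl : 0 < lam) (w : List L) : Mx lam (red w) = Mx lam w := by
  induction w with
  | nil => rfl
  | cons x w ih => rw [red_cons, Mx_push lam hl, ih, Mx_cons]

/-- Lower bounds for the growth. -/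
noncomputable def theta : L → ℝ
  | (false, true) => 1 / 10
  | (false, false) => 10 ^ 100
  | (true, _) => 10 ^ 100

theorem theta_le (lam : ℝ) (hl : 4 * 10 ^ 100 ≤ lam) (x : L) : theta x ≤ P lam x / 4 := by
  have h1 : (1 : ℝ) ≤ 10 ^ 100 := one_le_pow₀ (by norm_num)
  rcases x with ⟨a, b⟩
  cases a <;> cases b <;> simp only [theta, P]
  · have : lam ≤ lam ^ 2 := by nlinarith
    linarith
  · norm_num
  · linarith
  · linarith

theorem theta_pos (x : L) : 0 < theta x := by
  rcases x with ⟨a, b⟩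
  cases a <;> cases b <;> simp only [theta] <;> positivity

theorem big (lam : ℝ) (hl : 4 * 10 ^ 100 ≤ lam) : 4 ≤ lam := by
  have h1 : (1 : ℝ) ≤ 10 ^ 100 := one_le_pow₀ (by norm_num)
  linarith

/-- Vectors which are not in the repelling region. -/
theorem exists_start (x : L) : ∃ v : Fin 2 → ℝ, 0 < N v ∧ ¬ U (inv x) v := by
  rcases x with ⟨a, b⟩
  cases a <;> cases b
  · exact ⟨![0, 1], by simp [N], by simp [U, att, inv]⟩
  · exact ⟨![1, 0], by simp [N], by simp [U, att, inv]⟩
  · exact ⟨![1, -1], by simp [N], by simp [U, att, inv]⟩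
  · exact ⟨![1, 1], by simp [N], by simp [U, att, inv]⟩

theorem pingpong (lam : ℝ) (hl : 4 * 10 ^ 100 ≤ lam) (s : List L) : ∀ y : L, Reduced (y :: s) →
    ∃ v : Fin 2 → ℝ, 0 < N v ∧ U y ((Mx lam (y :: s)).mulVec v) ∧
      (wt theta (y :: s)) ^ 2 * N v ≤ N ((Mx lam (y :: s)).mulVec v) := by
  have h4 := big lam hl
  have key : ∀ (y : L) (u : Fin 2 → ℝ), 0 < N u → ¬ U (inv y) u →
      U y ((mat lam y).mulVec u) ∧ theta y ^ 2 * N u ≤ N ((mat lam y).mulVec u) := by
    intro y u hu hU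
    obtain ⟨h1, h2⟩ := step lam h4 y u hu hU
    refine ⟨h1, le_trans ?_ h2⟩
    refine mul_le_mul_of_nonneg_right ?_ hu.le
    exact pow_le_pow_left₀ (theta_pos y).le (theta_le lam hl y) 2
  induction s with
  | nil =>
    intro y _
    obtain ⟨v, hv, hU⟩ := exists_start y
    obtain ⟨h1, h2⟩ := key y v hv hU
    exact ⟨v, hv, by simpa using h1, by simpa using h2⟩
  | cons z s ih =>
    intro y hred
    obtain ⟨v, hv, hU, hN⟩ := ih z hred.2
    have hne : z ≠ inv y := fun h => hred.1 (by rw [h, inv_inv])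
    have hU' := U_disj z (inv y) hne _ hU
    have hpos : 0 < N ((Mx lam (z :: s)).mulVec v) :=
      lt_of_lt_of_le (mul_pos (pow_pos (wt_pos _ theta_pos _) 2) hv) hN
    obtain ⟨h1, h2⟩ := key y _ hpos hU'
    refine ⟨v, hv, ?_, ?_⟩
    · rw [Mx_cons, ← Matrix.mulVec_mulVec]; exact h1
    · rw [Mx_cons, ← Matrix.mulVec_mulVec, wt_cons, mul_pow]
      refine le_trans ?_ h2
      rw [mul_assoc]
      exact mul_le_mul_of_nonneg_left hN (sq_nonneg _)

/-- The operator norm for the Euclidean norm. -/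
noncomputable def opn (g : Matrix (Fin 2) (Fin 2) ℝ) : ℝ := ‖Matrix.toEuclideanCLM (𝕜 := ℝ) g‖

theorem opn_mul (g h : Matrix (Fin 2) (Fin 2) ℝ) : opn (g * h) ≤ opn g * opn h := by
  unfold opn
  rw [map_mul]
  exact norm_mul_le _ _

theorem opn_one : opn 1 = 1 := by
  unfold opn
  rw [map_one]
  exact ContinuousLinearMap.norm_id

theorem N_eq (v : Fin 2 → ℝ) : N v = ‖WithLp.toLp 2 v‖ ^ 2 := by
  rw [EuclideanSpace.norm_sq_eq]
  simp [N, Fin.sum_univ_two]

theorem N_mulVec_le (g : Matrix (Fin 2) (Fin 2) ℝ) (v : Fin 2 → ℝ) :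
    N (g.mulVec v) ≤ opn g ^ 2 * N v := by
  rw [N_eq, N_eq, ← mul_pow]
  refine pow_le_pow_left₀ (norm_nonneg _) ?_ 2
  have h := (Matrix.toEuclideanCLM (𝕜 := ℝ) g).le_opNorm (WithLp.toLp 2 v)
  rwa [Matrix.toEuclideanCLM_toLp] at h

theorem opn_nonneg (g : Matrix (Fin 2) (Fin 2) ℝ) : 0 ≤ opn g := norm_nonneg _

theorem le_opn (g : Matrix (Fin 2) (Fin 2) ℝ) (v : Fin 2 → ℝ) (hv : 0 < N v) (c : ℝ)
    (h : c ^ 2 * N v ≤ N (g.mulVec v)) : c ≤ opn g := by
  have h1 : c ^ 2 * N v ≤ opn g ^ 2 * N v := h.trans (N_mulVec_le g v)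
  have h2 : c ^ 2 ≤ opn g ^ 2 := le_of_mul_le_mul_right h1 hv
  exact le_of_sq_le_sq h2 (opn_nonneg g)

/-- The lower bound for the norm of a product. -/
theorem wt_le_opn (lam : ℝ) (hl : 4 * 10 ^ 100 ≤ lam) (w : List L) :
    wt theta (red w) ≤ opn (Mx lam w) := by
  have h0 : 0 < lam := by linarith [big lam hl]
  rw [← Mx_red lam h0]
  have hred := reduced_red w
  cases h : red w with
  | nil => simp [opn_one]
  | cons y s =>
    rw [h] at hred
    obtain ⟨v, hv, -, hN⟩ := pingpong lam hl s y hred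
    exact le_opn _ v hv _ hN

end Pool.Agent.Q214.MP2489
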