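import Mathlib

set_option autoImplicit false

namespace Pool.Agent.Q214.MP2489

/-- Letters: (generator, sign). -/
abbrev L : Type := Bool × Bool

/-- Inverse letter. -/
def inv (x : L) : L := (x.1, !x.2)

theorem inv_inv (x : L) : inv (inv x) = x := by
  rcases x with ⟨a, b⟩; simp [inv]

theorem inv_ne (x : L) : inv x ≠ x := by
  rcases x with ⟨a, b⟩; cases b <;> simp [inv]

/-- Push a letter on a stack, cancelling inverse letters. -/
def push (x : L) : List L → List L
  | [] => [x]
  | (y :: s) => if x = inv y then s else x :: y :: s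

/-- The reduced word. -/
def red (w : List L) : List L := w.foldr push []

@[simp] theorem red_nil : red [] = [] := rfl

@[simp] theorem red_cons (x : L) (w : List L) : red (x :: w) = push x (red w) := rfl

/-- Reduced words. -/
def Reduced : List L → Prop
  | [] => True
  | [_] => True
  | (x :: y :: s) => x ≠ inv y ∧ Reduced (y :: s)

theorem Reduced.tail {x : L} {s : List L} (h : Reduced (x :: s)) : Reduced s := by
  cases s with
  | nil => trivial
  | cons y s => exact h.2

theorem reduced_push (x : L) (s : List L) (h : Reduced s) : Reduced (push x s) := by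
  cases s with
  | nil => trivial
  | cons y s =>
    simp only [push]
    split_ifs with hx
    · exact h.tail
    · exact ⟨hx, h⟩

theorem reduced_red (w : List L) : Reduced (red w) := by
  induction w with
  | nil => trivial
  | cons x w ih => exact reduced_push x _ ih

theorem length_push (x : L) (s : List L) : (push x s).length ≤ s.length + 1 := by
  cases s with
  | nil => simp [push]
  | cons y s =>
    simp only [push]
    split_ifs
    · simp only [List.length_cons]; omega
    · simp

theorem length_red (w : List L) : (red w).length ≤ w.length := by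
  induction w with
  | nil => simp
  | cons x w ih => exact (length_push x _).trans (Nat.succ_le_succ ih)

/-- The multiplicative extension of a weight. -/
def wt (β : L → ℝ) (s : List L) : ℝ := (s.map β).prod

@[simp] theorem wt_nil (β : L → ℝ) : wt β [] = 1 := rfl

@[simp] theorem wt_cons (β : L → ℝ) (x : L) (s : List L) : wt β (x :: s) = β x * wt β s := by
  simp [wt]

theorem wt_pos (β : L → ℝ) (hβ : ∀ x, 0 < β x) (s : List L) : 0 < wt β s := by
  induction s with
  | nil => simp
  | cons x s ih => rw [wt_cons]; exact mul_pos (hβ x) ih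

/-- The potential `Ψ`. -/
noncomputable def Psi (β : L → ℝ) : List L → ℝ
  | [] => 1
  | (x :: s) => wt β (x :: s) + (√3)⁻¹ * Psi β s

theorem Psi_pos (β : L → ℝ) (hβ : ∀ x, 0 < β x) (s : List L) : 0 < Psi β s := by
  induction s with
  | nil => simp [Psi]
  | cons x s ih =>
    have := wt_pos β hβ (x :: s)
    unfold Psi
    positivity

theorem wt_le_Psi (β : L → ℝ) (hβ : ∀ x, 0 < β x) (s : List L) : wt β s ≤ Psi β s := by
  cases s with
  | nil => simp [Psi]
  | cons x s =>
    have := Psi_pos β hβ s
    unfold Psi
    have : 0 ≤ (√3)⁻¹ * Psi β s := by positivity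
    linarith

theorem sum_push (h : List L → ℝ) (y : L) (s : List L) :
    ∑ x, h (push x (y :: s)) = h s + ∑ x ∈ Finset.univ.erase (inv y), h (x :: y :: s) := by
  rw [← Finset.add_sum_erase _ _ (Finset.mem_univ (inv y))]
  congr 1
  · simp [push]
  · refine Finset.sum_congr rfl fun x hx => ?_
    have : x ≠ inv y := Finset.ne_of_mem_erase hx
    simp [push, this]

/-- `Ψ` is superharmonic with constant `2 √3`. -/
theorem Psi_super (β : L → ℝ) (hβ : ∀ x, 0 < β x) (hsum : ∑ x, β x ≤ 2 / √3) (s : List L) :
    ∑ x, Psi β (push x s) ≤ 2 * √3 * Psi β s := by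
  have h3 : (√3) * √3 = 3 := Real.mul_self_sqrt (by norm_num)
  have h3pos : (0 : ℝ) < √3 := by positivity
  cases s with
  | nil =>
    have e : ∑ x, Psi β (push x []) = ∑ x, β x + 4 * (√3)⁻¹ := by
      simp only [push, Psi, wt_cons, wt_nil, mul_one]
      rw [Finset.sum_add_distrib]
      simp
    rw [e]
    have e2 : 2 / √3 + 4 * (√3)⁻¹ = 2 * √3 := by
      field_simp
      nlinarith
    simp only [Psi, mul_one]
    linarith
  | cons y s =>
    rw [sum_push]
    have hc : (Finset.univ.erase (inv y)).card = 3 := by
      rw [Finset.card_erase_of_mem (Finset.mem_univ _)]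
      simp
    have e : ∑ x ∈ Finset.univ.erase (inv y), Psi β (x :: y :: s) =
        (∑ x ∈ Finset.univ.erase (inv y), β x) * wt β (y :: s) + √3 * Psi β (y :: s) := by
      have : ∀ x, Psi β (x :: y :: s) = β x * wt β (y :: s) + (√3)⁻¹ * Psi β (y :: s) := by
        intro x
        conv_lhs => unfold Psi
        rw [wt_cons]
      simp only [this]
      rw [Finset.sum_add_distrib, ← Finset.sum_mul, Finset.sum_const, hc]
      have : (3 : ℕ) • ((√3)⁻¹ * Psi β (y :: s)) = √3 * Psi β (y :: s) := by
        have h4 : 3 * (√3)⁻¹ = √3 := by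
          rw [← div_eq_mul_inv, div_eq_iff h3pos.ne', h3]
        rw [nsmul_eq_mul]
        push_cast
        rw [← mul_assoc, h4]
      rw [this]
    rw [e]
    have hle : ∑ x ∈ Finset.univ.erase (inv y), β x ≤ ∑ x, β x :=
      Finset.sum_le_sum_of_subset_of_nonneg (Finset.erase_subset _ _) fun x _ _ => (hβ x).le
    have hw := wt_pos β hβ (y :: s)
    have hs : Psi β s = √3 * (Psi β (y :: s) - wt β (y :: s)) := by
      conv_rhs => unfold Psi
      field_simp
      ring
    have h5 : 2 / √3 ≤ √3 := by
      rw [div_le_iff₀ h3pos, h3]; norm_num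
    have h6 : (∑ x ∈ Finset.univ.erase (inv y), β x) * wt β (y :: s) ≤ √3 * wt β (y :: s) :=
      mul_le_mul_of_nonneg_right (hle.trans (hsum.trans h5)) hw.le
    rw [hs]
    linarith

/-- One step of the walk. -/
def Aop (h : List L → ℝ) : List L → ℝ := fun s => ∑ x, h (push x s)

/-- The sum over all words of length `n`. -/
def T (h : List L → ℝ) (n : ℕ) : ℝ := ∑ w : Fin n → L, h (red (List.ofFn w))

theorem T_zero (h : List L → ℝ) : T h 0 = h [] := by
  simp [T]

theorem T_succ (h : List L → ℝ) (n : ℕ) : T h (n + 1) = T (Aop h) n := by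
  unfold T Aop
  rw [← (Fin.consEquiv fun _ => L).sum_comp, Fintype.sum_prod_type, Finset.sum_comm]
  refine Finset.sum_congr rfl fun w _ => Finset.sum_congr rfl fun x _ => ?_
  simp [Fin.consEquiv, List.ofFn_succ]

theorem T_mono (h g : List L → ℝ) (hg : ∀ s, h s ≤ g s) (n : ℕ) : T h n ≤ T g n :=
  Finset.sum_le_sum fun _ _ => hg _

theorem T_smul (c : ℝ) (h : List L → ℝ) (n : ℕ) : T (fun s => c * h s) n = c * T h n := by
  unfold T
  rw [Finset.mul_sum]

theorem T_Psi (β : L → ℝ) (hβ : ∀ x, 0 < β x) (hsum : ∑ x, β x ≤ 2 / √3) (n : ℕ) :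
    T (Psi β) n ≤ (2 * √3) ^ n := by
  induction n with
  | zero => rw [T_zero]; simp [Psi]
  | succ n ih =>
    rw [T_succ]
    refine (T_mono _ (fun s => 2 * √3 * Psi β s) (Psi_super β hβ hsum) n).trans ?_
    rw [T_smul, pow_succ']
    exact mul_le_mul_of_nonneg_left ih (by positivity)

/-- The upper bound. -/
theorem T_wt (β : L → ℝ) (hβ : ∀ x, 0 < β x) (hsum : ∑ x, β x ≤ 2 / √3) (n : ℕ) :
    T (wt β) n ≤ (2 * √3) ^ n :=
  (T_mono _ _ (wt_le_Psi β hβ) n).trans (T_Psi β hβ hsum n)

/-- Weighted numbers of returning paths. -/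
def b : ℕ → ℕ → ℝ
  | 0, 0 => 1
  | 0, (_ + 1) => 0
  | (n + 1), 0 => 3 * b n 1
  | (n + 1), (k + 1) => 3 * b n (k + 2) + b n k

theorem b_nonneg (n k : ℕ) : 0 ≤ b n k := by
  induction n generalizing k with
  | zero => cases k <;> simp [b]
  | succ n ih =>
    cases k with
    | zero => simp only [b]; have := ih 1; positivity
    | succ k => simp only [b]; have := ih (k + 2); have := ih k; positivity

theorem b_zero (n k : ℕ) (h : n < k) : b n k = 0 := by
  induction n generalizing k with
  | zero =>
    cases k with
    | zero => omega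
    | succ k => simp [b]
  | succ n ih =>
    cases k with
    | zero => omega
    | succ k => simp only [b]; rw [ih (k + 2) (by omega), ih k (by omega)]; simp

/-- Ballot numbers. -/
def cc (n j : ℕ) : ℝ := (n.choose j : ℝ) - if j = 0 then 0 else (n.choose (j - 1) : ℝ)

theorem cc_succ (n j : ℕ) : cc (n + 1) (j + 1) = cc n j + cc n (j + 1) := by
  unfold cc
  cases j with
  | zero => simp [Nat.choose_succ_succ]
  | succ j =>
    simp only [Nat.add_eq_zero_iff, one_ne_zero, and_false, if_false, Nat.add_sub_cancel,
      Nat.choose_succ_succ]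
    push_cast
    ring

theorem b_eq (n : ℕ) : ∀ j k : ℕ, n = k + 2 * j → b n k = 3 ^ j * cc n j := by
  induction n with
  | zero =>
    intro j k h
    have hj : j = 0 := by omega
    have hk : k = 0 := by omega
    subst hj hk
    simp [b, cc]
  | succ n ih =>
    intro j k h
    cases k with
    | zero =>
      cases j with
      | zero => omega
      | succ j =>
        simp only [b]
        rw [ih j 1 (by omega), cc_succ]
        have hn : n = 2 * j + 1 := by omega
        have hz : cc n (j + 1) = 0 := by
          subst hn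
          unfold cc
          rw [if_neg (by omega), Nat.add_sub_cancel]
          have : (2 * j + 1).choose (j + 1) = (2 * j + 1).choose j :=
            Nat.choose_symm_half j
          rw [this, sub_self]
        rw [hz, add_zero, pow_succ]
        ring
    | succ k =>
      cases j with
      | zero =>
        simp only [b]
        rw [b_zero n (k + 2) (by omega), ih 0 k (by omega)]
        simp [cc]
      | succ j =>
        simp only [b]
        rw [ih j (k + 2) (by omega), ih (j + 1) k (by omega), cc_succ, pow_succ]
        ring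

theorem cc_mid (m : ℕ) : cc (2 * m) m * ((m : ℝ) + 1) = Nat.centralBinom m := by
  unfold cc
  rcases m with _ | m
  · simp
  · rw [if_neg (by omega), Nat.add_sub_cancel]
    have h := Nat.choose_succ_right_eq (2 * (m + 1)) m
    have h2 : 2 * (m + 1) - m = m + 2 := by omega
    rw [h2] at h
    have h3 : (((2 * (m + 1)).choose (m + 1) : ℕ) : ℝ) * ((m : ℝ) + 1) =
        ((2 * (m + 1)).choose m : ℕ) * ((m : ℝ) + 2) := by
      exact_mod_cast h
    rw [Nat.centralBinom_eq_two_mul_choose]
    push_cast
    linear_combination h3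

theorem Aop_iter_ge (n : ℕ) (s : List L) :
    b n s.length ≤ (Aop^[n] (fun s => if s = [] then 1 else 0)) s := by
  induction n generalizing s with
  | zero =>
    cases s with
    | nil => simp [b]
    | cons x s => simp [b]
  | succ n ih =>
    rw [Function.iterate_succ_apply']
    set g := Aop^[n] (fun s => if s = [] then (1 : ℝ) else 0) with hg
    unfold Aop
    cases s with
    | nil =>
      simp only [b, List.length_nil, push]
      calc 3 * b n 1 ≤ 4 * b n 1 := by
            have := b_nonneg n 1
            linarith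
        _ = ∑ x : L, b n 1 := by
            rw [Finset.sum_const]; simp
        _ ≤ ∑ x : L, g [x] := Finset.sum_le_sum fun x _ => by simpa using ih [x]
    | cons y s =>
      rw [sum_push]
      simp only [List.length_cons, b]
      have hc : (Finset.univ.erase (inv y)).card = 3 := by
        rw [Finset.card_erase_of_mem (Finset.mem_univ _)]
        simp
      have h1 : 3 * b n (s.length + 2) ≤ ∑ x ∈ Finset.univ.erase (inv y), g (x :: y :: s) := by
        calc 3 * b n (s.length + 2) = ∑ x ∈ Finset.univ.erase (inv y), b n (s.length + 2) := by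
              rw [Finset.sum_const, hc]; simp
          _ ≤ _ := Finset.sum_le_sum fun x _ => by simpa using ih (x :: y :: s)
      have h2 := ih s
      linarith

theorem T_eq_iter (h : List L → ℝ) (n : ℕ) : T h n = (Aop^[n] h) [] := by
  induction n generalizing h with
  | zero => rw [T_zero]; rfl
  | succ n ih => rw [T_succ, ih, Function.iterate_succ_apply]

/-- The lower bound: many words reduce to the empty word. -/
theorem T_return (m : ℕ) (hm : 1 ≤ m) :
    (12 : ℝ) ^ m / (2 * m * (m + 1)) ≤ T (fun s => if s = [] then 1 else 0) (2 * m) := by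
  rw [T_eq_iter]
  refine le_trans ?_ (Aop_iter_ge (2 * m) [])
  rw [List.length_nil, b_eq (2 * m) m 0 (by omega)]
  have h1 := cc_mid m
  have h2 : (4 : ℝ) ^ m ≤ 2 * m * (Nat.centralBinom m : ℝ) := by
    exact_mod_cast Nat.four_pow_le_two_mul_self_mul_centralBinom m hm
  have hm0 : (0 : ℝ) < m := by exact_mod_cast hm
  have h3 : cc (2 * m) m = (Nat.centralBinom m : ℝ) / (m + 1) := by
    rw [eq_div_iff (by positivity)]; exact h1
  rw [h3, div_le_iff₀ (by positivity)]
  have h4 : (12 : ℝ) ^ m = 3 ^ m * 4 ^ m := by rw [← mul_pow]; norm_num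
  rw [h4]
  have h5 : (3 : ℝ) ^ m * ((Nat.centralBinom m : ℝ) / (m + 1)) * (2 * m * (m + 1)) =
      3 ^ m * (2 * m * (Nat.centralBinom m : ℝ)) := by
    field_simp
  rw [h5]
  exact mul_le_mul_of_nonneg_left h2 (by positivity)

end Pool.Agent.Q214.MP2489
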